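import Mathlib
import Pool.Agent.H82.CpDefs
import Pool.Agent.H82.Extd

set_option autoImplicit false

namespace Pool.Agent.Results.MP_a74b27_gt.ImageNotExtendial

open Pool.Agent.H82.CpDefs

theorem result : ∃ (X Y : Type) (_ : TopologicalSpace X) (_ : TopologicalSpace Y),
    CompactSpace X ∧ T2Space X ∧ CompactSpace Y ∧ T2Space Y ∧
    (∃ f : X → Y, Continuous f ∧ Function.Surjective f) ∧
    Extendial X ∧ ¬ TExtendial Y := by
  obtain ⟨c, hc⟩ := Pool.Agent.H82.Extd.exists_c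
  refine ⟨Pool.Agent.H82.Extd.D × OnePoint ℕ, Set.range (Pool.Agent.H82.Extd.Φ c),
    inferInstance, inferInstance, inferInstance, inferInstance,
    isCompact_iff_compactSpace.1 (isCompact_range (Pool.Agent.H82.Extd.Φ_cont c)), inferInstance,
    ⟨fun z => ⟨_, z, rfl⟩, (Pool.Agent.H82.Extd.Φ_cont c).subtype_mk _, ?_⟩,
    Pool.Agent.H82.Extd.extendial, Pool.Agent.H82.Extd.not_text c hc⟩
  rintro ⟨_, z, rfl⟩
  exact ⟨z, rfl⟩

end Pool.Agent.Results.MP_a74b27_gt.ImageNotExtendial
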